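import Mathlib
import Pool.Agent.Helper57.Cut.Geo

/-!
# Lengths of paths and homotopies with bounded length (packet GEO-R of MP_86dbc7_gt)
-/

open Set
open scoped ENNReal NNReal unitInterval Topology

namespace Pool.Agent.Helper77.Cut

open Pool.Agent.Helper57.Cut

section general

variable {M : Type*} [PseudoEMetricSpace M] {a b c d : M}

theorem len_eq_extend (p : Path a b) : len p = eVariationOn p.extend (Icc 0 1) := by
  have h : (p : I → M) = p.extend ∘ ((↑) : I → ℝ) := by ext t; simp
  unfold len
  rw [h, eVariationOn.comp_eq_of_monotoneOn p.extend (Subtype.val : I → ℝ) (fun x _ y _ h => h)]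
  congr 1
  ext x
  simp

theorem len_trans (p : Path a b) (q : Path b c) : len (p.trans q) = len p + len q := by
  have h1 : eVariationOn (p.trans q).extend (Icc 0 (1 / 2)) = len p := by
    rw [len_eq_extend]
    have e : EqOn (p.trans q).extend (p.extend ∘ fun t => 2 * t) (Icc 0 (1 / 2)) := by
      intro t ht
      have ht' : t ∈ Icc (0 : ℝ) 1 := ⟨ht.1, by linarith [ht.2]⟩
      rw [Path.extend_apply _ ht', Path.trans_apply]
      simp only [ht.2, Function.comp_apply, dif_pos]
      rw [Path.extend_apply _ (by constructor <;> linarith [ht.1, ht.2])]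
    rw [eVariationOn.congr e, eVariationOn.comp_eq_of_monotoneOn _ _
      (fun x _ y _ h => by simpa using h)]
    congr 1
    ext x
    constructor
    · rintro ⟨y, hy, rfl⟩
      constructor <;> simp only <;> linarith [hy.1, hy.2]
    · intro hx
      exact ⟨x / 2, by constructor <;> linarith [hx.1, hx.2], by simp only; ring⟩
  have h2 : eVariationOn (p.trans q).extend (Icc (1 / 2) 1) = len q := by
    rw [len_eq_extend]
    have e : EqOn (p.trans q).extend (q.extend ∘ fun t => 2 * t - 1) (Icc (1 / 2) 1) := by
      intro t ht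
      have ht' : t ∈ Icc (0 : ℝ) 1 := ⟨by linarith [ht.1], ht.2⟩
      rw [Path.extend_apply _ ht', Path.trans_apply]
      simp only [Function.comp_apply]
      rw [Path.extend_apply _ (by constructor <;> linarith [ht.1, ht.2])]
      split_ifs with h
      · have : t = 1 / 2 := le_antisymm h ht.1
        subst this
        have e1 : (⟨2 * (1 / 2 : ℝ), by norm_num⟩ : I) = 1 := Subtype.ext (by norm_num)
        have e2 : (⟨2 * (1 / 2 : ℝ) - 1, by norm_num⟩ : I) = 0 := Subtype.ext (by norm_num)
        simp only [e1, e2, p.target, q.source]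
      · rfl
    rw [eVariationOn.congr e, eVariationOn.comp_eq_of_monotoneOn _ _
      (fun x _ y _ h => by simpa using h)]
    congr 1
    ext x
    constructor
    · rintro ⟨y, hy, rfl⟩
      constructor <;> simp only <;> linarith [hy.1, hy.2]
    · intro hx
      exact ⟨(x + 1) / 2, by constructor <;> linarith [hx.1, hx.2], by simp only; ring⟩
  rw [len_eq_extend (p.trans q), ← h1, ← h2]
  have := eVariationOn.Icc_add_Icc (p.trans q).extend (s := univ) (a := (0 : ℝ)) (b := 1 / 2)
    (c := 1) (by norm_num) (by norm_num) (mem_univ _)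
  simpa using this.symm

/-- homotopy rel end points through paths of length at most `ℓ` -/
def HW (ℓ : ℝ≥0∞) (p q : Path a b) : Prop :=
  ∃ F : p.Homotopy q, ∀ t, eVariationOn (fun s => F (t, s)) univ ≤ ℓ

theorem HW.mono {ℓ ℓ' : ℝ≥0∞} {p q : Path a b} (h : HW ℓ p q) (hl : ℓ ≤ ℓ') : HW ℓ' p q := by
  obtain ⟨F, hF⟩ := h
  exact ⟨F, fun t => (hF t).trans hl⟩

theorem HW.refl {ℓ : ℝ≥0∞} (p : Path a b) (h : len p ≤ ℓ) : HW ℓ p p :=
  ⟨Path.Homotopy.refl p, fun _ => h⟩

theorem HW.symm {ℓ : ℝ≥0∞} {p q : Path a b} (h : HW ℓ p q) : HW ℓ q p := by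
  obtain ⟨F, hF⟩ := h
  exact ⟨F.symm, fun t => by simpa [Path.Homotopy.symm] using hF (unitInterval.symm t)⟩

theorem HW.trans {ℓ : ℝ≥0∞} {p q r : Path a b} (h : HW ℓ p q) (h' : HW ℓ q r) : HW ℓ p r := by
  obtain ⟨F, hF⟩ := h
  obtain ⟨G, hG⟩ := h'
  refine ⟨F.trans G, fun t => ?_⟩
  by_cases ht : (t : ℝ) ≤ 1 / 2
  · have : (fun s => (F.trans G) (t, s)) = fun s => F (⟨2 * (t : ℝ),
        (unitInterval.mul_pos_mem_iff zero_lt_two).2 ⟨t.2.1, ht⟩⟩, s) := by
      ext s
      rw [Path.Homotopy.trans_apply, dif_pos ht]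
    rw [this]
    exact hF _
  · have : (fun s => (F.trans G) (t, s)) = fun s => G (⟨2 * (t : ℝ) - 1,
        unitInterval.two_mul_sub_one_mem_iff.2 ⟨(not_le.1 ht).le, t.2.2⟩⟩, s) := by
      ext s
      rw [Path.Homotopy.trans_apply, dif_neg ht]
    rw [this]
    exact hG _

theorem HW.len_left {ℓ : ℝ≥0∞} {p q : Path a b} (h : HW ℓ p q) : len p ≤ ℓ := by
  obtain ⟨F, hF⟩ := h
  simpa [len] using hF 0

theorem HW.len_right {ℓ : ℝ≥0∞} {p q : Path a b} (h : HW ℓ p q) : len q ≤ ℓ := h.symm.len_left

theorem HW.hcomp {ℓ ℓ' : ℝ≥0∞} {p q : Path a b} {p' q' : Path b c} (h : HW ℓ p q)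
    (h' : HW ℓ' p' q') : HW (ℓ + ℓ') (p.trans p') (q.trans q') := by
  obtain ⟨F, hF⟩ := h
  obtain ⟨G, hG⟩ := h'
  refine ⟨F.hcomp G, fun t => ?_⟩
  have e : (fun s => (F.hcomp G) (t, s)) = (F.eval t).trans (G.eval t) := by
    ext s
    rw [Path.Homotopy.hcomp_apply, Path.trans_apply]
  rw [e]
  change len _ ≤ _
  rw [len_trans]
  exact add_le_add (hF t) (hG t)

/-- two monotone reparametrisations of the same curve -/
theorem HW.of_monotone (f : ℝ → M) (hf : Continuous f) {x y : ℝ} (l m : I → ℝ)
    (hl : Continuous l) (hm : Continuous m) (ml : Monotone l) (mm : Monotone m)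
    (l0 : l 0 = x) (l1 : l 1 = y) (m0 : m 0 = x) (m1 : m 1 = y)
    (p q : Path a b) (hp : ∀ s, p s = f (l s)) (hq : ∀ s, q s = f (m s)) :
    HW (eVariationOn f (Icc x y)) p q := by
  let F : p.Homotopy q :=
    { toFun := fun z => f ((1 - (z.1 : ℝ)) * l z.2 + z.1 * m z.2)
      continuous_toFun := by fun_prop
      map_zero_left := fun s => by simp [hp]
      map_one_left := fun s => by simp [hq]
      prop' := by
        intro t s hs
        rcases hs with rfl | hs
        · simp only [ContinuousMap.coe_mk, l0, m0]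
          rw [Path.coe_toContinuousMap, hp, l0]
          congr 1
          ring
        · rw [mem_singleton_iff] at hs
          subst hs
          simp only [ContinuousMap.coe_mk, l1, m1]
          rw [Path.coe_toContinuousMap, hp, l1]
          congr 1
          ring }
  refine ⟨F, fun t => ?_⟩
  have e : (fun s => F (t, s)) = f ∘ fun s => (1 - (t : ℝ)) * l s + t * m s := rfl
  rw [e]
  have h0 : (0 : ℝ) ≤ t := t.2.1
  have h1 : (0 : ℝ) ≤ 1 - t := by linarith [t.2.2]
  have mono : Monotone fun s => (1 - (t : ℝ)) * l s + t * m s := by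
    intro u v huv
    have := mul_le_mul_of_nonneg_left (ml huv) h1
    have := mul_le_mul_of_nonneg_left (mm huv) h0
    simp only
    linarith
  refine eVariationOn.comp_le_of_monotoneOn _ _ (mono.monotoneOn _) fun s _ => ?_
  have hs0 : (0 : I) ≤ s := s.2.1
  have hs1 : s ≤ (1 : I) := s.2.2
  constructor
  · have := mono hs0
    simp only [l0, m0] at this
    linarith
  · have := mono hs1
    simp only [l1, m1] at this
    linarith

theorem monotone_assoc : Monotone Path.Homotopy.transAssocReparamAux := by
  intro s t hst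
  have hst' : (s : ℝ) ≤ t := hst
  have := s.2.1
  have := t.2.2
  unfold Path.Homotopy.transAssocReparamAux
  split_ifs <;> linarith

theorem HW.assoc (p : Path a b) (q : Path b c) (r : Path c d) :
    HW (len p + len q + len r) ((p.trans q).trans r) (p.trans (q.trans r)) := by
  have h := HW.of_monotone (p.trans (q.trans r)).extend (Path.continuous_extend _)
    (x := 0) (y := 1) Path.Homotopy.transAssocReparamAux (fun s => s)
    Path.Homotopy.continuous_transAssocReparamAux continuous_subtype_val monotone_assoc
    (fun x y h => h) Path.Homotopy.transAssocReparamAux_zero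
    Path.Homotopy.transAssocReparamAux_one rfl rfl
    ((p.trans q).trans r) (p.trans (q.trans r)) (fun s => by
      rw [Path.extend_apply _ (Path.Homotopy.transAssocReparamAux_mem_I s),
        Path.Homotopy.trans_assoc_reparam]
      rfl) (fun s => by simp)
  rw [← len_eq_extend, len_trans, len_trans, ← add_assoc] at h
  exact h

/-! ### closed curves -/

/-- closed curves on the unit interval, of length less than `L` -/
def PP (L : ℝ≥0∞) (c : C(I, M)) : Prop := c 0 = c 1 ∧ eVariationOn c univ < L

/-- homotopic through closed curves of length less than `L` -/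
def FC (L : ℝ≥0∞) (c c' : C(I, M)) : Prop := ContinuousMap.HomotopicWith c c' (PP L)

theorem FC.symm {L : ℝ≥0∞} {c c' : C(I, M)} (h : FC L c c') : FC L c' c :=
  ContinuousMap.HomotopicWith.symm h

theorem FC.trans {L : ℝ≥0∞} {c c' c'' : C(I, M)} (h : FC L c c') (h' : FC L c' c'') :
    FC L c c'' :=
  ContinuousMap.HomotopicWith.trans h h'

theorem HW.fc {L ℓ : ℝ≥0∞} {p q : Path a b} (h : HW ℓ p q) (hab : a = b) (hl : ℓ < L) :
    FC L (p : C(I, M)) (q : C(I, M)) := by
  obtain ⟨F, hF⟩ := h
  refine ⟨⟨F.toHomotopy, fun t => ⟨?_, ?_⟩⟩⟩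
  · change F (t, 0) = F (t, 1)
    rw [F.source, F.target, hab]
  · exact (hF t).trans_lt hl

/-- the variation of a periodic function over a period -/
theorem variation_periodic (g : ℝ → M) (hg : Function.Periodic g 1) {t : ℝ} (h0 : 0 ≤ t)
    (h1 : t ≤ 1) : eVariationOn g (Icc t (t + 1)) = eVariationOn g (Icc 0 1) := by
  have e1 := eVariationOn.Icc_add_Icc g (s := univ) (a := t) (b := 1) (c := t + 1) h1
    (by linarith) (mem_univ _)
  have e2 := eVariationOn.Icc_add_Icc g (s := univ) (a := 0) (b := t) (c := 1) h0 h1 (mem_univ _)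
  have e3 : eVariationOn g (Icc 1 (t + 1)) = eVariationOn g (Icc 0 t) := by
    have : g = g ∘ fun x => x + 1 := by
      ext x
      exact (hg x).symm
    conv_rhs => rw [this]
    rw [eVariationOn.comp_eq_of_monotoneOn g (fun x : ℝ => x + 1)
      (fun x _ y _ h => by simpa using h)]
    simp
  simp only [univ_inter] at e1 e2
  rw [← e1, ← e2, e3, add_comm]

theorem FC.rot {L : ℝ≥0∞} (p : Path a b) (q : Path b a) (h : len p + len q < L) :
    FC L (p.trans q : C(I, M)) (q.trans p : C(I, M)) := by
  set c : ℝ → M := ⇑(p.trans q).extend with hc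
  have c01 : c 0 = c 1 := by simp [hc]
  set g : ℝ → M := c ∘ Int.fract with hg
  have gc : Continuous g := ContinuousOn.comp_fract'' (Path.continuous_extend _).continuousOn c01
  have gper : Function.Periodic g 1 := fun x => by simp [hg]
  have gI : EqOn g c (Icc 0 1) := by
    intro x hx
    rcases hx.2.lt_or_eq with h | h
    · simp only [hg, Function.comp_apply]
      rw [Int.fract_eq_self.2 ⟨hx.1, h⟩]
    · subst h
      simp [hg, hc]
  have glen : eVariationOn g (Icc 0 1) = len p + len q := by
    rw [eVariationOn.congr gI, hc, ← len_eq_extend, len_trans]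
  let H : ContinuousMap.Homotopy (p.trans q : C(I, M)) (q.trans p : C(I, M)) :=
    { toFun := fun z => g ((z.2 : ℝ) + z.1 / 2)
      continuous_toFun := by fun_prop
      map_zero_left := fun s => by
        simp only [Set.Icc.coe_zero, zero_div, add_zero]
        rw [gI s.2]
        simp [hc]
      map_one_left := fun s => by
        simp only [Set.Icc.coe_one]
        change _ = (q.trans p) s
        rw [Path.trans_apply]
        split_ifs with hs
        · rw [gI ⟨by linarith [s.2.1], by linarith⟩, hc, Path.extend_apply _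
            ⟨by linarith [s.2.1], by linarith⟩, Path.trans_apply]
          split_ifs with hs'
          · simp only at hs'
            have : (s : ℝ) = 0 := le_antisymm (by linarith) s.2.1
            have e1 : (⟨2 * ((s : ℝ) + 1 / 2), by rw [this]; norm_num⟩ : I) = 1 :=
              Subtype.ext (by simp [this])
            have e2 : (⟨2 * (s : ℝ), by rw [this]; norm_num⟩ : I) = 0 :=
              Subtype.ext (by simp [this])
            rw [e1, e2, p.target, q.source]
          · congr 1
            apply Subtype.ext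
            simp only
            ring
        · have e : (s : ℝ) + 1 / 2 = ((s : ℝ) - 1 / 2) + 1 := by ring
          rw [e, gper, gI ⟨by linarith, by linarith [s.2.2]⟩, hc, Path.extend_apply _
            ⟨by linarith, by linarith [s.2.2]⟩, Path.trans_apply]
          split_ifs with hs'
          · congr 1
            apply Subtype.ext
            simp only
            ring
          · exfalso
            simp only at hs'
            linarith [s.2.2] }
  refine ⟨⟨H, fun t => ⟨?_, ?_⟩⟩⟩
  · change g (((0 : I) : ℝ) + t / 2) = g (((1 : I) : ℝ) + t / 2)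
    rw [Set.Icc.coe_zero, Set.Icc.coe_one, zero_add, add_comm, gper]
  · have t0 := t.2.1
    have t1 := t.2.2
    change eVariationOn (g ∘ fun s : I => (s : ℝ) + t / 2) univ < L
    refine lt_of_le_of_lt (eVariationOn.comp_le_of_monotoneOn g (s := Icc ((t : ℝ) / 2) (t / 2 + 1))
      _ (fun x _ y _ h => ?_) fun s _ => ⟨?_, ?_⟩) ?_
    · have : (x : ℝ) ≤ y := h
      linarith
    · linarith [s.2.1]
    · linarith [s.2.2]
    · rw [variation_periodic g gper (by linarith) (by linarith), glen]
      exact h

/-! ### pieces of a curve -/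

/-- the piece of `f` between the times `x` and `y` -/
def seg (f : C(ℝ, M)) (x y : ℝ) (hx : a = f x) (hy : b = f y) : Path a b where
  toFun s := f ((1 - (s : ℝ)) * x + s * y)
  continuous_toFun := by fun_prop
  source' := by simp [hx]
  target' := by simp [hy]

theorem HW.seg_split (f : C(ℝ, M)) {x y z : ℝ} (hxy : x ≤ y) (hyz : y ≤ z) (hx : a = f x)
    (hy : b = f y) (hz : c = f z) :
    HW (eVariationOn f (Icc x z)) (seg f x z hx hz) ((seg f x y hx hy).trans (seg f y z hy hz)) := by
  refine HW.of_monotone f f.continuous (fun s => (1 - (s : ℝ)) * x + s * z)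
    (fun s => if (s : ℝ) ≤ 1 / 2 then (1 - 2 * (s : ℝ)) * x + 2 * s * y
      else (2 - 2 * (s : ℝ)) * y + (2 * s - 1) * z) (by fun_prop) ?_ ?_ ?_ (by simp) (by simp)
      (by simp) (by norm_num) _ _ (fun s => rfl) fun s => ?_
  · exact continuous_if_le (by fun_prop) (by fun_prop) (by fun_prop) (by fun_prop)
      (by intro s hs; rw [hs]; ring)
  · intro s t hst
    have hst' : (s : ℝ) ≤ t := hst
    simp only
    nlinarith
  · intro s t hst
    have hst' : (s : ℝ) ≤ t := hst
    simp only
    split_ifs with h1 h2 h2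
    · nlinarith
    · have : (1 - 2 * (s : ℝ)) * x + 2 * s * y ≤ y := by nlinarith
      have : y ≤ (2 - 2 * (t : ℝ)) * y + (2 * t - 1) * z := by nlinarith
      linarith
    · linarith
    · nlinarith
  · rw [Path.trans_apply]
    split_ifs with h
    · change f _ = f _
      simp only
    · change f _ = f _
      simp only
      congr 1
      ring

/-! ### closed curves on the circle -/

/-- the closed curve on the unit interval given by a closed curve on the circle -/
def toI (γ : C(AddCircle (1 : ℝ), M)) : C(I, M) :=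
  ⟨fun s => γ ((s : ℝ) : AddCircle (1 : ℝ)),
    γ.continuous.comp ((AddCircle.continuous_mk' 1).comp continuous_subtype_val)⟩

theorem contracts_of_FC (L : ℝ) (γ : C(AddCircle (1 : ℝ), M)) (x : M)
    (h : FC (ENNReal.ofReal L) (toI γ) (ContinuousMap.const I x)) : ContractsBelow L γ := by
  obtain ⟨F⟩ := h
  have hF0 : ∀ t : I, F (t, 0) = F (t, 1) := fun t => (F.prop t).1
  have hF1 : ∀ t : I, eVariationOn (fun s => F (t, s)) univ < ENNReal.ofReal L :=
    fun t => (F.prop t).2
  let f : I → ℝ → M := fun t s => F (t, projIcc 0 1 zero_le_one s)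
  have fc : ContinuousOn (Function.uncurry f) (univ ×ˢ Icc 0 1) := by
    apply Continuous.continuousOn
    exact F.continuous.comp (continuous_fst.prodMk (continuous_projIcc.comp continuous_snd))
  have f01 : ∀ t, f t 0 = f t 1 := fun t => by simp [f, hF0]
  have Gc : Continuous fun st : I × ℝ => f st.1 (Int.fract st.2) := ContinuousOn.comp_fract' fc f01
  have Gper : ∀ t, Function.Periodic (fun s => f t (Int.fract s)) (1 : ℝ) := fun t s => by simp
  let H : I × AddCircle (1 : ℝ) → M := fun z => (Gper z.1).lift z.2
  have Hc : Continuous H := by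
    have : IsOpenQuotientMap (Prod.map (id : I → I) ((↑) : ℝ → AddCircle (1 : ℝ))) :=
      IsOpenQuotientMap.id.prodMap QuotientAddGroup.isOpenQuotientMap_mk
    rw [this.isQuotientMap.continuous_iff]
    exact Gc
  refine ⟨⟨H, Hc⟩, fun s => ?_, ⟨x, fun s => ?_⟩, fun t => ?_⟩
  · induction s using QuotientAddGroup.induction_on with
    | H s =>
      change f 0 (Int.fract s) = _
      simp only [f]
      rw [F.apply_zero]
      simp only [toI, ContinuousMap.coe_mk]
      rw [projIcc_of_mem _ ⟨Int.fract_nonneg s, (Int.fract_lt_one s).le⟩]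
      congr 1
      simp only
      have : ((⌊s⌋ : ℝ) : AddCircle (1 : ℝ)) = 0 :=
        (AddCircle.coe_eq_zero_iff (1 : ℝ)).2 ⟨⌊s⌋, by simp⟩
      rw [Int.fract, AddCircle.coe_sub, this, sub_zero]
  · induction s using QuotientAddGroup.induction_on with
    | H s =>
      change f 1 (Int.fract s) = _
      simp [f]
  · have e : eVariationOn (fun s : ℝ => H (t, (s : AddCircle (1 : ℝ)))) (Icc 0 1) =
        eVariationOn (fun s => F (t, s)) univ := by
      have e1 : EqOn (fun s : ℝ => H (t, (s : AddCircle (1 : ℝ)))) (f t) (Icc 0 1) := by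
        intro s hs
        change f t (Int.fract s) = f t s
        rcases hs.2.lt_or_eq with h | h
        · rw [Int.fract_eq_self.2 ⟨hs.1, h⟩]
        · subst h
          simp [f01]
      rw [eVariationOn.congr e1]
      have e2 : (fun s : I => F (t, s)) = f t ∘ (Subtype.val : I → ℝ) := by
        ext s
        simp [f]
      rw [e2, eVariationOn.comp_eq_of_monotoneOn (f t) (Subtype.val : I → ℝ) (fun x _ y _ h => h)]
      congr 1
      ext y
      simp
    change eVariationOn (fun s : ℝ => H (t, (s : AddCircle (1 : ℝ)))) (Icc 0 1) < _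
    rw [e]
    exact hF1 t

end general

end Pool.Agent.Helper77.Cut
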