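import Mathlib
import Pool.Agent.Helper77.Cut.Paths

/-!
# Realisation of discrete contractions of closed polygons (packet GEO-R of MP_86dbc7_gt)
-/

open Set Metric
open scoped ENNReal NNReal unitInterval Topology

universe u

namespace Pool.Agent.Helper77.Cut

open Pool.Agent.Helper57.Cut Pool.Agent.Helper21.Cut

section walks

variable {M : Type u} [MetricSpace M] {K : Set M}

/-- polygonal paths made of the paths `P x y` -/
noncomputable def walk (P : ∀ x y : M, Path x y) : ∀ (a : K) (_ : List K) (b : K), Path (a : M) (b : M)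
  | a, [], b => P a b
  | a, x :: l, b => (P a x).trans (walk P x l b)

theorem walkLen_nonneg {X : Type*} [PseudoMetricSpace X] (a : X) (l : List X) (b : X) :
    0 ≤ walkLen a l b := by
  induction l generalizing a with
  | nil => exact dist_nonneg
  | cons x l ih => exact add_nonneg dist_nonneg (ih x)

theorem walkLen_append {X : Type*} [PseudoMetricSpace X] (a : X) (l : List X) (b c : X) :
    walkLen a (l ++ [b]) c = walkLen a l b + dist b c := by
  induction l generalizing a with
  | nil => rfl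
  | cons x l ih => simp only [List.cons_append, walkLen, ih]; ring

theorem walkLen_le {X : Type*} [PseudoMetricSpace X] (a : X) (l : List X) (b z : X) :
    walkLen a l z ≤ walkLen a l b + dist z b := by
  induction l generalizing a with
  | nil =>
    simp only [walkLen]
    rw [dist_comm z b]
    exact dist_triangle _ _ _
  | cons x l ih =>
    simp only [walkLen]
    linarith [ih x]

variable {P : ∀ x y : M, Path x y} {κ : ℝ}

theorem len_walk (hκ : 0 ≤ κ) (hP : ∀ x y, len (P x y) ≤ ENNReal.ofReal (κ * dist x y)) (a : K)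
    (l : List K) (b : K) : len (walk P a l b) ≤ ENNReal.ofReal (κ * walkLen a l b) := by
  induction l generalizing a with
  | nil => exact hP _ _
  | cons x l ih =>
    simp only [walk, walkLen]
    rw [len_trans, mul_add, ENNReal.ofReal_add (mul_nonneg hκ dist_nonneg)
      (mul_nonneg hκ (walkLen_nonneg _ _ _))]
    exact add_le_add (hP _ _) (ih x)

theorem walk_append (hκ : 0 ≤ κ) (hP : ∀ x y, len (P x y) ≤ ENNReal.ofReal (κ * dist x y)) (a : K)
    (l : List K) (b c : K) :
    HW (ENNReal.ofReal (κ * walkLen a (l ++ [b]) c)) (walk P a (l ++ [b]) c)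
      ((walk P a l b).trans (P b c)) := by
  induction l generalizing a with
  | nil => exact HW.refl _ (len_walk hκ hP a [b] c)
  | cons x l ih =>
    have e : ENNReal.ofReal (κ * walkLen a (x :: l ++ [b]) c) =
        ENNReal.ofReal (κ * dist a x) + ENNReal.ofReal (κ * walkLen x (l ++ [b]) c) := by
      rw [← ENNReal.ofReal_add (mul_nonneg hκ dist_nonneg)
        (mul_nonneg hκ (walkLen_nonneg _ _ _)), ← mul_add]
      rfl
    rw [e]
    have h1 := HW.hcomp (HW.refl (P a x) (hP a x)) (ih x)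
    refine HW.trans h1 (HW.symm ((HW.assoc (P a x) (walk P x l b) (P b c)).mono ?_))
    rw [walkLen_append, mul_add, ENNReal.ofReal_add (mul_nonneg hκ (walkLen_nonneg _ _ _))
      (mul_nonneg hκ dist_nonneg), ← add_assoc]
    exact add_le_add (add_le_add (hP _ _) (len_walk hκ hP x l b)) (hP _ _)

theorem mem_ball_of_len {x y : M} (p : Path x y) {r : ℝ} (h : len p < ENNReal.ofReal r) (t : I) :
    p t ∈ ball x r := by
  have hr : 0 < r := by
    by_contra hr
    rw [ENNReal.ofReal_of_nonpos (not_lt.1 hr)] at h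
    simp at h
  have h1 : edist (p 0) (p t) ≤ len p := eVariationOn.edist_le _ (mem_univ _) (mem_univ _)
  rw [p.source] at h1
  rw [mem_ball', ← ENNReal.ofReal_lt_ofReal_iff hr, ← edist_dist]
  exact h1.trans_lt h

/-- contraction of two short paths -/
theorem HW.contract {r : ℝ} (hT : Tame K r) (x : K) {b : M} (p q : Path (x : M) b) {v : ℝ}
    (hv : v < r) (hr : 0 < r) (hp : len p ≤ ENNReal.ofReal v) (hq : len q ≤ ENNReal.ofReal v) :
    HW (ENNReal.ofReal (3 / 2 * v)) p q := by
  have hv' : ENNReal.ofReal v < ENNReal.ofReal r := (ENNReal.ofReal_lt_ofReal_iff hr).2 hv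
  obtain ⟨F, hF⟩ := hT.contract x x.2 _ _ p q (mem_ball_of_len p (hp.trans_lt hv'))
    (mem_ball_of_len q (hq.trans_lt hv'))
  refine ⟨F, fun t => (hF t).trans ?_⟩
  rw [ENNReal.ofReal_mul (by norm_num)]
  have : ENNReal.ofReal (3 / 2) = 3 / 2 := by
    rw [ENNReal.ofReal_div_of_pos (by norm_num)]
    simp
  rw [this]
  exact mul_le_mul_right (max_le hp hq) _

theorem walk_insert (hκ : 1 ≤ κ) (hκ' : κ ≤ 5 / 4)
    (hP : ∀ x y, len (P x y) ≤ ENNReal.ofReal (κ * dist x y)) {r δ : ℝ} (hT : Tame K r)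
    (hδ : 0 < δ) (hr : 10 * δ ≤ r) (a : K) (l : List K) (b z : K)
    (h1 : List.IsChain (fun x y => dist x y ≤ δ) (a :: (l ++ [b])))
    (h2 : List.IsChain (fun x y => dist x y ≤ δ) (a :: (l ++ [z]))) (h3 : dist z b ≤ δ) :
    HW (ENNReal.ofReal (κ * walkLen a l b + 4 * δ)) (walk P a l b)
      ((walk P a l z).trans (P z b)) := by
  have hκ0 : 0 ≤ κ := by linarith
  induction l generalizing a with
  | nil =>
    have h1' : dist a b ≤ δ := by simpa using h1
    have h2' : dist a z ≤ δ := by simpa using h2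
    simp only [walk, walkLen]
    have g1 : len (P a b) ≤ ENNReal.ofReal (5 / 2 * δ) := by
      refine (hP _ _).trans (ENNReal.ofReal_le_ofReal ?_)
      have : κ * dist (a : M) b ≤ 5 / 4 * δ :=
        mul_le_mul hκ' h1' dist_nonneg (by norm_num)
      linarith
    have g2 : len ((P a z).trans (P z b)) ≤ ENNReal.ofReal (5 / 2 * δ) := by
      rw [len_trans]
      refine (add_le_add (hP _ _) (hP _ _)).trans ?_
      rw [← ENNReal.ofReal_add (mul_nonneg hκ0 dist_nonneg) (mul_nonneg hκ0 dist_nonneg)]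
      refine ENNReal.ofReal_le_ofReal ?_
      have : κ * dist (a : M) z ≤ 5 / 4 * δ :=
        mul_le_mul hκ' h2' dist_nonneg (by norm_num)
      have : κ * dist (z : M) b ≤ 5 / 4 * δ :=
        mul_le_mul hκ' h3 dist_nonneg (by norm_num)
      linarith
    refine (HW.contract hT a _ _ (by linarith) (by linarith) g1 g2).mono
      (ENNReal.ofReal_le_ofReal ?_)
    have : 0 ≤ κ * dist a b := mul_nonneg hκ0 dist_nonneg
    linarith
  | cons x l ih =>
    simp only [List.cons_append] at h1 h2
    rw [List.isChain_cons_cons] at h1 h2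
    have h4 := ih x h1.2 h2.2
    simp only [walk]
    have e : ENNReal.ofReal (κ * walkLen a (x :: l) b + 4 * δ) =
        ENNReal.ofReal (κ * dist a x) + ENNReal.ofReal (κ * walkLen x l b + 4 * δ) := by
      rw [← ENNReal.ofReal_add (mul_nonneg hκ0 dist_nonneg)
        (add_nonneg (mul_nonneg hκ0 (walkLen_nonneg _ _ _)) (by linarith)), ← add_assoc, ← mul_add]
      rfl
    rw [e]
    refine HW.trans (HW.hcomp (HW.refl (P a x) (hP a x)) h4)
      (HW.symm ((HW.assoc (P a x) (walk P x l z) (P z b)).mono ?_))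
    rw [add_assoc]
    refine add_le_add (hP _ _) ((add_le_add (len_walk hκ0 hP x l z) (hP _ _)).trans ?_)
    rw [← ENNReal.ofReal_add (mul_nonneg hκ0 (walkLen_nonneg _ _ _))
      (mul_nonneg hκ0 dist_nonneg)]
    refine ENNReal.ofReal_le_ofReal ?_
    have g1 := walkLen_le x l b z
    have g2 : κ * walkLen x l z ≤ κ * walkLen x l b + κ * dist z b := by
      rw [← mul_add]
      exact mul_le_mul_of_nonneg_left g1 hκ0
    have g3 : κ * dist z b ≤ 5 / 4 * δ := mul_le_mul hκ' h3 dist_nonneg (by norm_num)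
    have g4 : κ * dist (z : M) b ≤ 5 / 4 * δ := g3
    linarith

/-- two closed polygons are realised by homotopic closed curves (or are equal) -/
def Rel (P : ∀ x y : M, Path x y) (L : ℝ≥0∞) (l l' : List K) : Prop :=
  l = l' ∨ ∃ a m a' m', l = a :: m ∧ l' = a' :: m' ∧
    FC L (walk P a m a : C(I, M)) (walk P a' m' a' : C(I, M))

theorem Rel.of_conn (hκ : 1 ≤ κ) (hκ' : κ ≤ 5 / 4)
    (hP : ∀ x y, len (P x y) ≤ ENNReal.ofReal (κ * dist x y)) {r δ Λ L : ℝ} (hT : Tame K r)
    (hδ : 0 < δ) (hr : 10 * δ ≤ r) (hL : 0 < L) (hκL : ∀ v, v < Λ → κ * v + 4 * δ < L)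
    {l l' : List K} (h : Conn δ Λ l l') : Rel P (ENNReal.ofReal L) l l' := by
  have hκ0 : 0 ≤ κ := by linarith
  induction h with
  | refl x => exact Or.inl rfl
  | symm x y _ ih =>
    rcases ih with rfl | ⟨a, m, a', m', h1, h2, h3⟩
    · exact Or.inl rfl
    · exact Or.inr ⟨a', m', a, m, h2, h1, h3.symm⟩
  | trans x y z _ _ ih1 ih2 =>
    rcases ih1 with rfl | ⟨a, m, a', m', h1, h2, h3⟩
    · exact ih2
    · rcases ih2 with rfl | ⟨b, k, b', k', g1, g2, g3⟩
      · exact Or.inr ⟨a, m, a', m', h1, h2, h3⟩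
      · rw [h2] at g1
        obtain ⟨rfl, rfl⟩ := List.cons.inj g1
        exact Or.inr ⟨a, m, b', k', h1, g2, h3.trans g3⟩
  | rel x y h =>
    cases h with
    | rot a l h =>
      cases l with
      | nil => exact Or.inl rfl
      | cons x l =>
        refine Or.inr ⟨a, x :: l, x, l ++ [a], rfl, rfl, ?_⟩
        have hlen : κ * (dist a x + walkLen x l a) + 4 * δ < L := hκL _ h.2.2
        simp only [walk]
        refine FC.trans (FC.rot (P a x) (walk P x l a) ?_)
          (HW.fc (HW.symm (walk_append hκ0 hP x l a x)) rfl ?_)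
        · refine lt_of_le_of_lt (add_le_add (hP _ _) (len_walk hκ0 hP x l a)) ?_
          rw [← ENNReal.ofReal_add (mul_nonneg hκ0 dist_nonneg)
            (mul_nonneg hκ0 (walkLen_nonneg _ _ _)), ← mul_add]
          refine (ENNReal.ofReal_lt_ofReal_iff hL).2 (lt_of_le_of_lt ?_ hlen)
          change κ * (dist a x + walkLen x l a) ≤ _
          linarith
        · rw [walkLen_append]
          refine (ENNReal.ofReal_lt_ofReal_iff hL).2 (lt_of_le_of_lt ?_ hlen)
          rw [add_comm]
          linarith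
    | ins z a l h h' =>
      refine Or.inr ⟨a, l, z, a :: l, rfl, rfl, ?_⟩
      have hlen : κ * walkLen a l a + 4 * δ < L := hκL _ h.2.2
      have hlen' : κ * (dist z a + walkLen a l z) + 4 * δ < L := hκL _ h'.2.2
      have m1 : List.IsChain (fun x y => dist x y ≤ δ) (a :: (l ++ [a])) := h.2.1
      have m2 : List.IsChain (fun x y => dist x y ≤ δ) (z :: (a :: l ++ [z])) := h'.2.1
      simp only [List.cons_append] at m2
      rw [List.isChain_cons_cons] at m2
      simp only [walk]
      refine FC.trans (HW.fc (walk_insert hκ hκ' hP hT hδ hr a l a z m1 m2.2 m2.1) rfl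
        ((ENNReal.ofReal_lt_ofReal_iff hL).2 hlen)) (FC.rot (walk P a l z) (P z a) ?_)
      refine lt_of_le_of_lt (add_le_add (len_walk hκ0 hP a l z) (hP _ _)) ?_
      rw [← ENNReal.ofReal_add (mul_nonneg hκ0 (walkLen_nonneg _ _ _))
        (mul_nonneg hκ0 dist_nonneg), ← mul_add]
      refine (ENNReal.ofReal_lt_ofReal_iff hL).2 (lt_of_le_of_lt ?_ hlen')
      rw [add_comm]
      change κ * (dist z a + walkLen a l z) ≤ _
      linarith

theorem ofReal_mul_dist_le {f : C(ℝ, M)} (hκ : 0 ≤ κ) {x y : ℝ} (hxy : x ≤ y) {a b : M}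
    (ha : a = f x) (hb : b = f y) :
    ENNReal.ofReal (κ * dist a b) ≤ ENNReal.ofReal κ * eVariationOn f (Icc x y) := by
  rw [ENNReal.ofReal_mul hκ, ← edist_dist]
  refine mul_le_mul_right ?_ _
  rw [ha, hb]
  exact eVariationOn.edist_le _ ⟨le_rfl, hxy⟩ ⟨hxy, le_rfl⟩

theorem three_half : ENNReal.ofReal (3 / 2) = 3 / 2 := by
  rw [ENNReal.ofReal_div_of_pos (by norm_num)]
  simp

/-- the curve `f` is homotopic to the polygon of its samples -/
theorem samples (hκ : 1 ≤ κ) (hκ' : κ ≤ 5 / 4)
    (hP : ∀ x y, len (P x y) ≤ ENNReal.ofReal (κ * dist x y)) {r δ : ℝ} (hT : Tame K r)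
    (hδ : 0 < δ) (hr : 10 * δ ≤ r) (f : C(ℝ, M)) (n : ℕ) (hn : 0 < n) (z : ℕ → K)
    (hz : ∀ i ≤ n, (z i : M) = f (i / n))
    (hd : ∀ i < n, ∀ s ∈ Icc (i / n : ℝ) ((i + 1) / n : ℝ), dist (f s) (z i) ≤ δ) :
    ∀ (k i j : ℕ) (hj : j = i + k + 1) (hjn : j ≤ n),
      HW (3 / 2 * (ENNReal.ofReal κ * eVariationOn f (Icc (i / n) (j / n))))
        (seg f (i / n) (j / n) (hz i (by omega)) (hz j hjn))
        (walk P (z i) ((List.range' (i + 1) k).map z) (z j)) := by
  have hκ0 : 0 ≤ κ := by linarith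
  have hn' : (0 : ℝ) < n := by exact_mod_cast hn
  have hκ1 : (1 : ℝ≥0∞) ≤ ENNReal.ofReal κ := by
    rw [← ENNReal.ofReal_one]
    exact ENNReal.ofReal_le_ofReal hκ
  have step : ∀ (i : ℕ) (hi : i + 1 ≤ n),
      HW (3 / 2 * (ENNReal.ofReal κ * eVariationOn f (Icc (i / n) ((i + 1 : ℕ) / n))))
        (seg f (i / n) ((i + 1 : ℕ) / n) (hz i (by omega)) (hz (i + 1) hi))
        (P (z i) (z (i + 1))) := by
    intro i hi
    have hle : (i / n : ℝ) ≤ (i + 1 : ℕ) / n := by
      push_cast
      gcongr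
      linarith
    have d1 : dist (z i : M) (z (i + 1)) ≤ δ := by
      rw [dist_comm, hz (i + 1) hi]
      refine hd i (by omega) _ ⟨hle, ?_⟩
      push_cast
      exact le_rfl
    have lenP : len (P (z i) (z (i + 1))) < ENNReal.ofReal r := by
      refine (hP _ _).trans_lt ((ENNReal.ofReal_lt_ofReal_iff (by linarith)).2 ?_)
      have : κ * dist (z i : M) (z (i + 1)) ≤ 5 / 4 * δ :=
        mul_le_mul hκ' d1 dist_nonneg (by norm_num)
      linarith
    have hseg : ∀ t, seg f (i / n) ((i + 1 : ℕ) / n) (hz i (by omega)) (hz (i + 1) hi) t ∈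
        ball (z i : M) r := by
      intro t
      rw [mem_ball]
      refine lt_of_le_of_lt (hd i (by omega) _ ⟨?_, ?_⟩) (by linarith : δ < r)
      · have := t.2.1
        nlinarith
      · have := t.2.2
        have e : ((i + 1 : ℕ) : ℝ) / n = (i + 1) / n := by push_cast; rfl
        rw [← e]
        nlinarith
    obtain ⟨F, hF⟩ := hT.contract (z i) (z i).2 _ _ _ _ hseg (mem_ball_of_len _ lenP)
    refine ⟨F, fun t => (hF t).trans ?_⟩
    refine mul_le_mul_right (max_le ?_ ?_) _
    · have : len (seg f (i / n) ((i + 1 : ℕ) / n) (hz i (by omega)) (hz (i + 1) hi)) ≤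
          eVariationOn f (Icc (i / n) ((i + 1 : ℕ) / n)) := by
        unfold len
        change eVariationOn (f ∘ fun s : I =>
          (1 - (s : ℝ)) * (i / n) + s * ((i + 1 : ℕ) / n)) univ ≤ _
        refine eVariationOn.comp_le_of_monotoneOn f _ (fun x _ y _ h => ?_) fun s _ => ⟨?_, ?_⟩
        · have : (x : ℝ) ≤ y := h
          nlinarith
        · have := s.2.1
          nlinarith
        · have := s.2.2
          nlinarith
      calc _ ≤ _ := this
        _ ≤ _ := le_mul_of_one_le_left zero_le hκ1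
    · exact (hP _ _).trans (ofReal_mul_dist_le hκ0 hle (hz i (by omega)) (hz (i + 1) hi))
  intro k
  induction k with
  | zero =>
    intro i j hj hjn
    subst hj
    exact step i hjn
  | succ k ih =>
    intro i j hj hjn
    have hi : i + 1 ≤ n := by omega
    have h1 := step i hi
    have h2 := ih (i + 1) j (by omega) hjn
    have l1 : (i / n : ℝ) ≤ (i + 1 : ℕ) / n := by
      push_cast
      gcongr
      linarith
    have l2 : ((i + 1 : ℕ) / n : ℝ) ≤ j / n := by
      gcongr
      omega
    have h3 := HW.seg_split f l1 l2 (hz i (by omega)) (hz (i + 1) hi) (hz j hjn)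
    have h4 := HW.hcomp h1 h2
    have e : eVariationOn f (Icc (i / n : ℝ) ((i + 1 : ℕ) / n)) +
        eVariationOn f (Icc ((i + 1 : ℕ) / n : ℝ) (j / n)) = eVariationOn f (Icc (i / n) (j / n)) := by
      simpa using eVariationOn.Icc_add_Icc f (s := univ) l1 l2 (mem_univ _)
    rw [← mul_add, ← mul_add, e] at h4
    rw [List.range'_succ, List.map_cons]
    refine HW.trans (h3.mono ?_) h4
    have c1 : (1 : ℝ≥0∞) ≤ 3 / 2 := by
      rw [← three_half, ← ENNReal.ofReal_one]
      exact ENNReal.ofReal_le_ofReal (by norm_num)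
    calc _ ≤ ENNReal.ofReal κ * eVariationOn f (Icc (i / n) (j / n)) :=
          le_mul_of_one_le_left zero_le hκ1
      _ ≤ _ := le_mul_of_one_le_left zero_le c1

end walks

theorem realise_stmt : RealiseStmt.{u} := by
  intro M _ K r L δ ρ Λ hT hδ hr hδρ hρr hρL hΛL γ hγ n z hn hz hd l hconn hl
  have hL : 0 < L := by linarith
  have hn' : (0 : ℝ) < n := by exact_mod_cast hn
  -- the short paths
  set θ : ℝ := min (1 / 4) (δ / L) with hθ
  have hθ0 : 0 < θ := lt_min (by norm_num) (div_pos hδ hL)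
  set κ : ℝ := 1 + θ with hκdef
  have hκ : 1 ≤ κ := by linarith
  have hκ' : κ ≤ 5 / 4 := by
    have := min_le_left (1 / 4 : ℝ) (δ / L)
    linarith
  have hκL : ∀ v, v < Λ → κ * v + 4 * δ < L := by
    intro v hv
    have h1 : θ * L ≤ δ := by
      have := min_le_right (1 / 4 : ℝ) (δ / L)
      calc θ * L ≤ δ / L * L := mul_le_mul_of_nonneg_right this hL.le
        _ = δ := by field_simp
    have h2 : θ * v ≤ θ * L := mul_le_mul_of_nonneg_left (by linarith) hθ0.le
    rw [hκdef]
    linarith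
  have hex : ∀ x y : M, ∃ p : Path x y, len p ≤ ENNReal.ofReal (κ * dist x y) := by
    intro x y
    by_cases h : x = y
    · subst h
      refine ⟨Path.refl x, ?_⟩
      have : len (Path.refl x) = 0 := eVariationOn.constant_on (by
        rintro _ ⟨_, _, rfl⟩ _ ⟨_, _, rfl⟩
        rfl)
      rw [this]
      exact zero_le
    · obtain ⟨p, hp⟩ := hT.length x y (θ * dist x y) (mul_pos hθ0 (dist_pos.2 h))
      refine ⟨p, hp.le.trans (ENNReal.ofReal_le_ofReal ?_)⟩
      rw [hκdef]
      linarith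
  choose P hP using hex
  -- the samples
  let f : C(ℝ, M) := ⟨fun s => γ (s : AddCircle (1 : ℝ)),
    γ.continuous.comp (AddCircle.continuous_mk' 1)⟩
  let z' : ℕ → K := fun i => if i < n then z i else z 0
  have hz' : ∀ i ≤ n, (z' i : M) = f (i / n) := by
    intro i hi
    rcases hi.lt_or_eq with h | h
    · simp only [z', h, if_true]
      exact hz i h
    · subst h
      have h0 := hz 0 hn
      simp only [z', lt_irrefl, if_false]
      rw [h0]
      change γ _ = γ _
      congr 1
      rw [div_self hn'.ne', Nat.cast_zero, zero_div]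
      rw [AddCircle.coe_zero]
      exact (AddCircle.coe_period (1 : ℝ)).symm
  have hd' : ∀ i < n, ∀ s ∈ Icc (i / n : ℝ) ((i + 1) / n : ℝ), dist (f s) (z' i) ≤ δ := by
    intro i hi s hs
    simp only [z', hi, if_true]
    exact hd i hi s hs
  obtain ⟨k, rfl⟩ : ∃ k, n = k + 1 := ⟨n - 1, by omega⟩
  have hsamp := samples hκ hκ' hP hT hδ hr f (k + 1) hn z' hz' hd' k 0 (k + 1) (by omega) le_rfl
  have hz0 : z' 0 = z 0 := by simp [z']
  have hzn : z' (k + 1) = z 0 := by simp [z']
  have hmap : (List.range' (0 + 1) k).map z' = (List.range' 1 k).map z := by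
    apply List.map_congr_left
    intro i hi
    rw [List.mem_range'_1] at hi
    have : i < k + 1 := by omega
    simp only [z', this, if_true]
  have hlist : (List.range (k + 1)).map z = z 0 :: (List.range' 1 k).map z := by
    rw [List.range_eq_range', List.range'_succ, List.map_cons]
  have hk : ((k + 1 : ℕ) : ℝ) / (k + 1 : ℕ) = 1 := div_self hn'.ne'
  have hlen : eVariationOn f (Icc ((0 : ℕ) / (k + 1 : ℕ) : ℝ) ((k + 1 : ℕ) / (k + 1 : ℕ))) ≤
      ENNReal.ofReal (L / 2) := by
    rw [hk, Nat.cast_zero, zero_div]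
    exact hγ
  have hsamp' : FC (ENNReal.ofReal L) (toI γ)
      (walk P (z 0) ((List.range' 1 k).map z) (z 0) : C(I, M)) := by
    have e0 : (z' 0 : M) = z' (k + 1) := by rw [hz0, hzn]
    have h1 := HW.fc (L := ENNReal.ofReal L) hsamp e0 ?_
    · have e1 : (seg f ((0 : ℕ) / (k + 1 : ℕ) : ℝ) ((k + 1 : ℕ) / (k + 1 : ℕ)) (hz' 0 (by omega))
          (hz' (k + 1) le_rfl) : C(I, M)) = toI γ := by
        ext s
        change f _ = γ _
        rw [hk, Nat.cast_zero, zero_div, mul_zero, zero_add, mul_one]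
        rfl
      rw [e1, hmap] at h1
      have e2 : ∀ (a b : K) (ha : a = z 0) (hb : b = z 0),
          (walk P a ((List.range' 1 k).map z) b : C(I, M)) =
          (walk P (z 0) ((List.range' 1 k).map z) (z 0) : C(I, M)) := by
        intro a b ha hb
        subst ha hb
        rfl
      rw [e2 _ _ hz0 hzn] at h1
      exact h1
    · refine lt_of_le_of_lt (mul_le_mul_right (mul_le_mul_right hlen _) _) ?_
      rw [← three_half, ← ENNReal.ofReal_mul (by linarith), ← ENNReal.ofReal_mul (by norm_num)]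
      refine (ENNReal.ofReal_lt_ofReal_iff hL).2 ?_
      nlinarith
  -- the last polygon
  have hrel := Rel.of_conn hκ hκ' hP hT hδ hr hL hκL hconn
  obtain ⟨a, m, rfl, hfc⟩ : ∃ a m, l = a :: m ∧
      FC (ENNReal.ofReal L) (toI γ) (walk P a m a : C(I, M)) := by
    rcases hrel with h | ⟨a, m, a', m', h1, h2, h3⟩
    · exact ⟨z 0, (List.range' 1 k).map z, by rw [← h, hlist], hsamp'⟩
    · rw [hlist] at h1
      obtain ⟨h4, h5⟩ := List.cons.inj h1
      refine ⟨a', m', h2, hsamp'.trans ?_⟩
      rw [← h4, ← h5] at h3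
      exact h3
  refine contracts_of_FC L γ a (hfc.trans ?_)
  have hl' : walkLen a m a < ρ := hl
  have hρ : 0 < ρ := by linarith
  have g1 : len (walk P a m a) ≤ ENNReal.ofReal (5 / 4 * ρ) := by
    refine (len_walk (by linarith) hP a m a).trans (ENNReal.ofReal_le_ofReal ?_)
    exact mul_le_mul hκ' hl'.le (walkLen_nonneg _ _ _) (by norm_num)
  have g2 : len (Path.refl (a : M)) ≤ ENNReal.ofReal (5 / 4 * ρ) := by
    have : len (Path.refl (a : M)) = 0 := eVariationOn.constant_on (by
      rintro _ ⟨_, _, rfl⟩ _ ⟨_, _, rfl⟩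
      rfl)
    rw [this]
    exact zero_le
  exact HW.fc (HW.contract hT a (walk P a m a) (Path.refl (a : M)) (by linarith) (by linarith)
    g1 g2) rfl ((ENNReal.ofReal_lt_ofReal_iff hL).2 (by linarith))

end Pool.Agent.Helper77.Cut
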